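import Mathlib

/-! The robber locating game (with no-backtrack). Time `t` refers to the position `x t`, which is
probed in round `t + 1`. -/

namespace Pool.Agent.P.MP_03a3ac_co

variable {V : Type}

/-- The answers of the first `t` rounds when the cop follows `σ` (the next probe as a function of
the answers received so far) and the robber follows the walk `x`. -/
noncomputable def answers (G : SimpleGraph V) (σ : List ℕ∞ → V) (x : ℕ → V) : ℕ → List ℕ∞
  | 0 => []
  | t + 1 => answers G σ x t ++ [G.edist (x t) (σ (answers G σ x t))]

/-- The first `t` moves of `x` are legal: stay or move to a neighbour, never onto the vertex that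
has just been probed. -/
def Legal (G : SimpleGraph V) (σ : List ℕ∞ → V) (x : ℕ → V) (t : ℕ) : Prop :=
  ∀ s < t, (x (s + 1) = x s ∨ G.Adj (x s) (x (s + 1))) ∧ x (s + 1) ≠ σ (answers G σ x s)

/-- The robber is located in round `t + 1`: every legal walk that gives the same first `t + 1`
answers is at `x t` at time `t`. -/
def Located (G : SimpleGraph V) (σ : List ℕ∞ → V) (x : ℕ → V) (t : ℕ) : Prop :=
  ∀ y : ℕ → V, Legal G σ y t → answers G σ y (t + 1) = answers G σ x (t + 1) → y t = x t

/-- The cop has a strategy that locates the robber within a bounded number of rounds. -/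
def Locatable (G : SimpleGraph V) : Prop :=
  ∃ (σ : List ℕ∞ → V) (N : ℕ), ∀ x : ℕ → V, Legal G σ x N → ∃ t ≤ N, Located G σ x t

end Pool.Agent.P.MP_03a3ac_co
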