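import Mathlib
import Pool.Agent.P.MP_03a3ac_co.Defs

/-! A closed family of vertex sets gives the robber a winning strategy. -/

namespace Pool.Agent.P.MP_03a3ac_co

variable {V : Type} {G : SimpleGraph V} {σ : List ℕ∞ → V}

theorem answers_congr {x y : ℕ → V} {t : ℕ} (h : ∀ s < t, x s = y s) :
    answers G σ x t = answers G σ y t := by
  induction t with
  | zero => rfl
  | succ t ih =>
    have := ih fun s hs => h s (by omega)
    simp only [answers, this, h t (by omega)]

theorem legal_congr {x y : ℕ → V} {t : ℕ} (h : ∀ s ≤ t, x s = y s) (hx : Legal G σ x t) :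
    Legal G σ y t := by
  intro s hs
  rw [← h s (by omega), ← h (s + 1) (by omega),
    ← answers_congr (x := x) fun r hr => h r (by omega)]
  exact hx s hs

theorem located_congr {x y : ℕ → V} {t : ℕ} (h : ∀ s ≤ t, x s = y s) (hx : Located G σ x t) :
    Located G σ y t := by
  intro z hz hz'
  rw [← h t le_rfl]
  exact hx z hz (hz'.trans (answers_congr fun r hr => (h r (by omega)).symm))

theorem not_locatable_of_family (F : Set (Set V)) (hne : ∃ A ∈ F, A.Nonempty)
    (hF : ∀ A ∈ F, ∀ p : V, ∃ d : ℕ∞, (∃ u ∈ A, ∃ v ∈ A, u ≠ v ∧ G.edist u p = d ∧ G.edist v p = d) ∧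
      ∃ A' ∈ F, A'.Nonempty ∧
        ∀ z ∈ A', z ≠ p ∧ ∃ s ∈ A, G.edist s p = d ∧ (z = s ∨ G.Adj s z)) :
    ¬ Locatable G := by
  rintro ⟨σ, N, hN⟩
  have key : ∀ t : ℕ, ∃ (l : List ℕ∞), ∃ A ∈ F, A.Nonempty ∧ ∀ z ∈ A, ∃ y : ℕ → V,
      Legal G σ y t ∧ answers G σ y t = l ∧ y t = z ∧ ∀ s < t, ¬ Located G σ y s := by
    intro t
    induction t with
    | zero =>
      obtain ⟨A, hA, hA'⟩ := hne
      exact ⟨[], A, hA, hA', fun z _ => ⟨fun _ => z, fun s hs => absurd hs (by omega), rfl, rfl,
        fun s hs => absurd hs (by omega)⟩⟩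
    | succ t ih =>
      obtain ⟨l, A, hA, -, hw⟩ := ih
      obtain ⟨d, ⟨u, hu, v, hv, huv, du, dv⟩, A', hA', hne', hz⟩ := hF A hA (σ l)
      refine ⟨l ++ [d], A', hA', hne', fun z hzA => ?_⟩
      obtain ⟨hzp, s0, hs0, ds, hmove⟩ := hz z hzA
      obtain ⟨y, y1, y2, y3, y4⟩ := hw s0 hs0
      obtain ⟨yu, u1, u2, u3, -⟩ := hw u hu
      obtain ⟨yv, v1, v2, v3, -⟩ := hw v hv
      have hy' : ∀ s ≤ t, y s = Function.update y (t + 1) z s := fun s hs => by
        rw [Function.update_of_ne (by omega)]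
      have a1 : answers G σ y (t + 1) = l ++ [d] := by simp only [answers, y2, y3, ds]
      have a2 : answers G σ yu (t + 1) = l ++ [d] := by simp only [answers, u2, u3, du]
      have a3 : answers G σ yv (t + 1) = l ++ [d] := by simp only [answers, v2, v3, dv]
      refine ⟨Function.update y (t + 1) z, ?_, ?_, by simp, ?_⟩
      · intro s hs
        rcases Nat.lt_succ_iff_lt_or_eq.1 hs with h | rfl
        · exact legal_congr hy' y1 s h
        · rw [Function.update_self, ← hy' s le_rfl,
            ← answers_congr (x := y) fun r hr => hy' r (by omega), y2, y3]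
          exact ⟨hmove, hzp⟩
      · rw [← a1]
        exact (answers_congr fun r hr => hy' r (by omega)).symm
      · intro s hs hloc
        have hloc' : Located G σ y s :=
          located_congr (fun r hr => (hy' r (by omega)).symm) hloc
        rcases Nat.lt_succ_iff_lt_or_eq.1 hs with h | rfl
        · exact y4 s h hloc'
        · have b1 := hloc' yu u1 (a2.trans a1.symm)
          have b2 := hloc' yv v1 (a3.trans a1.symm)
          exact huv (by rw [← u3, ← v3, b1, b2])
  obtain ⟨l, A, -, ⟨z, hz⟩, hw⟩ := key (N + 1)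
  obtain ⟨y, y1, -, -, y4⟩ := hw z hz
  obtain ⟨t, ht, hloc⟩ := hN y fun s hs => y1 s (by omega)
  exact y4 t (by omega) hloc

end Pool.Agent.P.MP_03a3ac_co
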