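import Mathlib
import Pool.Agent.P.MP_03a3ac_co.Abstract

/-! A checker for local robber strategies that work against every possible distance function. -/

namespace Pool.Agent.P.MP_03a3ac_co

/-- A local configuration together with a family of vertex sets on which the robber survives. -/
structure Cert where
  m : ℕ
  extra : List (ℕ × ℕ)
  ind : Bool
  xnon : List (ℕ × ℕ)
  closed : List ℕ
  root : ℕ
  tree : List (ℕ × ℕ)
  om : ℕ
  fam : List ℕ
  N : ℕ
  NN : ℕ
  goods : List ℕ

def Cert.ord (c : Cert) : List ℕ := c.root :: c.tree.map Prod.fst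

def blk (C v : ℕ) : ℕ := Nat.mod (Nat.shiftRight C (Nat.mul 16 v)) 65536

def tb (a i : ℕ) : Bool := Nat.beq (Nat.land (Nat.shiftRight a i) 1) 1

def sub (a b : ℕ) : Bool := Nat.beq (Nat.land a b) a

def isZ (a : ℕ) : Bool := Nat.beq a 0

def allLt (n : ℕ) (f : ℕ → Bool) : Bool := Nat.rec true (fun k r => Bool.rec false r (f k)) n

def anyUp (n : ℕ) (f : ℕ → Bool) : ℕ → Bool :=
  Nat.rec (fun _ => false) (fun _ r k => Bool.rec (r (Nat.succ k)) true (f k)) n

def addBit (a i : ℕ) : ℕ := Nat.lor a (Nat.pow 2 i)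

def maskOf (l : List ℕ) (a : ℕ) : ℕ := l.foldl addBit a

def clo (N m S : ℕ) : ℕ :=
  Nat.rec S (fun i acc => Bool.rec acc (Nat.lor acc (blk N i)) (tb S i)) m

def two (m S : ℕ) : Bool :=
  anyUp m (fun u => tb S u && anyUp u (fun v => tb S v) 0) 0

def goodOK (N m : ℕ) (fam : List ℕ) (j G : ℕ) : Bool :=
  allLt (Nat.pow 2 m) fun S => !tb G S ||
    (two m S && fam.any fun A => sub A (clo N m S) && !tb A j)

def win (fam : List ℕ) (G C lo : ℕ) : Bool :=
  fam.all fun A => anyUp 10 (fun w => tb G (Nat.land A (blk C w))) lo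

def entryOK (N C : ℕ) (f : ℕ → ℕ) (c : ℕ) : Bool :=
  !isZ (Nat.land (blk N c) (blk C (Nat.pred (f c))))

def leaf (c : Cert) (C lo : ℕ) (f : ℕ → ℕ) : Bool :=
  (!(c.closed.all (entryOK c.N C f)) || win c.fam (c.goods.getD c.m 0) C lo) &&
    c.ord.all fun j => !(Nat.beq (blk C lo) (Nat.pow 2 j) &&
        sub (Nat.land (blk c.N j) c.om) (blk C (Nat.succ lo)) &&
        isZ (Nat.land (blk c.NN j) (blk C (Nat.succ lo))) &&
        c.closed.all fun x => Nat.beq x j || entryOK c.N C f x) ||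
      win c.fam (c.goods.getD j 0) C lo

def upd (f : ℕ → ℕ) (i v : ℕ) : ℕ → ℕ := fun j => Bool.rec (f j) v (Nat.beq j i)

def mn (a b : ℕ) : ℕ := Bool.rec b a (Nat.ble a b)

def enum (c : Cert) : List (ℕ × ℕ) → ℕ → ℕ → ℕ → (ℕ → ℕ) → Bool
  | [], _, C, lo, f => leaf c C lo f
  | e :: l, asg, C, lo, f => allLt 3 fun w =>
      !(sub (Nat.land (blk c.N e.1) asg)
          (Nat.lor (Nat.lor (blk C (Nat.pred (Nat.add (Nat.pred (f e.2)) w)))
            (blk C (Nat.add (Nat.pred (f e.2)) w)))
            (blk C (Nat.succ (Nat.add (Nat.pred (f e.2)) w))))) ||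
        enum c l (addBit asg e.1) (addBit C (Nat.add (Nat.mul 16 (Nat.add (Nat.pred (f e.2)) w)) e.1))
          (mn lo (Nat.add (Nat.pred (f e.2)) w)) (upd f e.1 (Nat.add (Nat.pred (f e.2)) w))

def conn (N : ℕ) : List (ℕ × ℕ) → ℕ → Bool
  | [], _ => true
  | e :: l, asg => (tb asg e.2 && tb (blk N e.1) e.2) && conn N l (addBit asg e.1)

def Cert.static (c : Cert) : Bool :=
  decide (c.m ≤ 10) && decide (c.tree.length ≤ 9) && Nat.beq c.om (maskOf c.ord 0) &&
    !c.fam.isEmpty && c.ord.all (fun i => decide (i < c.m)) &&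
    c.fam.all (fun A => sub A c.om && !isZ A && tb (c.goods.getD c.m 0) A) &&
    c.closed.all (fun x => c.ord.contains x && sub (blk c.N x) c.om) &&
    (c.m :: c.ord).all (fun j => goodOK c.N c.m c.fam j (c.goods.getD j 0)) &&
    conn c.N c.tree (addBit 0 c.root)

def Cert.dyn (c : Cert) : Bool :=
  enum c c.tree (addBit 0 c.root) (addBit 0 (160 + c.root)) 10 (fun _ => 10)

theorem tb_eq (a i : ℕ) : tb a i = a.testBit i := by
  show Nat.beq ((a >>> i) &&& 1) 1 = _
  rw [Nat.and_one_is_mod, Bool.eq_iff_iff, Nat.beq_eq, Nat.testBit_eq_decide_div_mod_eq,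
    Nat.shiftRight_eq_div_pow, decide_eq_true_eq]

theorem allLt_iff {n : ℕ} {f : ℕ → Bool} : allLt n f = true ↔ ∀ k < n, f k = true := by
  induction n with
  | zero => simp [allLt]
  | succ n ih =>
    have : allLt (n + 1) f = Bool.rec false (allLt n f) (f n) := rfl
    rw [this, Nat.forall_lt_succ_right, ← ih]
    cases f n <;> simp

theorem anyUp_spec {n : ℕ} {f : ℕ → Bool} {k : ℕ} (h : anyUp n f k = true) :
    ∃ w, k ≤ w ∧ w < k + n ∧ f w = true := by
  induction n generalizing k with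
  | zero => cases h
  | succ n ih =>
    have : anyUp (n + 1) f k = Bool.rec (anyUp n f (k + 1)) true (f k) := rfl
    rw [this] at h
    cases hk : f k
    · rw [hk] at h
      obtain ⟨w, h1, h2, h3⟩ := ih h
      exact ⟨w, by omega, by omega, h3⟩
    · exact ⟨k, le_rfl, by omega, hk⟩

theorem testBit_blk (C v j : ℕ) : (blk C v).testBit j = (decide (j < 16) && C.testBit (16 * v + j)) := by
  show ((C >>> (16 * v)) % 2 ^ 16).testBit j = _
  rw [Nat.testBit_mod_two_pow, Nat.testBit_shiftRight]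

theorem testBit_land (a b j : ℕ) : (Nat.land a b).testBit j = (a.testBit j && b.testBit j) :=
  Nat.testBit_and a b j

theorem testBit_lor (a b j : ℕ) : (Nat.lor a b).testBit j = (a.testBit j || b.testBit j) :=
  Nat.testBit_or a b j

theorem testBit_addBit (a i j : ℕ) : (addBit a i).testBit j = (a.testBit j || decide (i = j)) := by
  show (a ||| 2 ^ i).testBit j = _
  rw [Nat.testBit_or, Nat.testBit_two_pow]

theorem sub_iff {a b : ℕ} : sub a b = true ↔ ∀ i, a.testBit i = true → b.testBit i = true := by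
  unfold sub
  rw [Nat.beq_eq]
  constructor
  · intro h i hi
    rw [← h, testBit_land] at hi
    exact (Bool.and_eq_true_iff.1 hi).2
  · intro h
    refine Nat.eq_of_testBit_eq fun i => ?_
    rw [testBit_land]
    cases hi : a.testBit i
    · rfl
    · rw [h i hi]; rfl

theorem isZ_iff {a : ℕ} : isZ a = true ↔ ∀ i, a.testBit i = false := by
  unfold isZ
  rw [Nat.beq_eq]
  constructor
  · rintro rfl i; exact Nat.zero_testBit i
  · intro h
    exact Nat.eq_of_testBit_eq fun i => by rw [h i, Nat.zero_testBit]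

theorem not_isZ_iff {a : ℕ} : (!isZ a) = true ↔ ∃ i, a.testBit i = true := by
  rw [Bool.not_eq_true', ← Bool.not_eq_true, isZ_iff]
  simp

theorem testBit_maskOf (l : List ℕ) (a j : ℕ) :
    (maskOf l a).testBit j = true ↔ a.testBit j = true ∨ j ∈ l := by
  induction l generalizing a with
  | nil => simp [maskOf]
  | cons i l ih =>
    have : maskOf (i :: l) a = maskOf l (addBit a i) := rfl
    rw [this, ih, testBit_addBit]
    simp only [Bool.or_eq_true, decide_eq_true_eq, List.mem_cons]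
    tauto

theorem clo_spec {N m S z : ℕ} (h : (clo N m S).testBit z = true) :
    S.testBit z = true ∨ ∃ i < m, S.testBit i = true ∧ (blk N i).testBit z = true := by
  induction m with
  | zero => exact Or.inl h
  | succ m ih =>
    have : clo N (m + 1) S = Bool.rec (clo N m S) (Nat.lor (clo N m S) (blk N m)) (tb S m) := rfl
    rw [this, tb_eq] at h
    cases hm : S.testBit m
    · rw [hm] at h
      exact (ih h).imp_right fun ⟨k, hk, h'⟩ => ⟨k, by omega, h'⟩
    · rw [hm] at h
      have h' : (Nat.lor (clo N m S) (blk N m)).testBit z = true := h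
      rw [testBit_lor, Bool.or_eq_true] at h'
      rcases h' with h' | h'
      · exact (ih h').imp_right fun ⟨k, hk, h'⟩ => ⟨k, by omega, h'⟩
      · exact Or.inr ⟨m, by omega, hm, h'⟩

/-- `C` records the values of `g` on the set `asg`. -/
def Inv (g : ℕ → ℕ) (asg C : ℕ) : Prop :=
  ∀ v j, j < 16 → (C.testBit (16 * v + j) = true ↔ asg.testBit j = true ∧ g j = v)

theorem Inv.blk {g : ℕ → ℕ} {asg C : ℕ} (h : Inv g asg C) (v j : ℕ) :
    (blk C v).testBit j = true ↔ j < 16 ∧ asg.testBit j = true ∧ g j = v := by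
  rw [testBit_blk, Bool.and_eq_true, decide_eq_true_eq]
  exact and_congr_right fun hj => h v j hj

theorem enum_sound (c : Cert) (g : ℕ → ℕ) (P : ℕ → Prop)
    (hP : ∀ i, P i → i < 16 ∧ 1 ≤ g i)
    (hlip : ∀ i j, P i → P j → (blk c.N i).testBit j = true → g i ≤ g j + 1 ∧ g j ≤ g i + 1)
    (l : List (ℕ × ℕ)) (asg C lo : ℕ) (f : ℕ → ℕ) (hl : ∀ e ∈ l, P e.1)
    (hasg : ∀ j, asg.testBit j = true → P j ∧ f j = g j ∧ lo ≤ g j)
    (hlo : ∃ j, asg.testBit j = true ∧ g j = lo)
    (hinv : Inv g asg C) (hconn : conn c.N l asg = true) (h : enum c l asg C lo f = true) :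
    ∃ C' lo' f', Inv g (maskOf (l.map Prod.fst) asg) C' ∧
      (∀ j, (maskOf (l.map Prod.fst) asg).testBit j = true → f' j = g j ∧ lo' ≤ g j) ∧
      (∃ j, (maskOf (l.map Prod.fst) asg).testBit j = true ∧ g j = lo') ∧
      leaf c C' lo' f' = true := by
  induction l generalizing asg C lo f with
  | nil => exact ⟨C, lo, f, hinv, fun j hj => (hasg j hj).2, hlo, h⟩
  | cons e l ih =>
    obtain ⟨i, q⟩ := e
    have hi : P i := hl _ List.mem_cons_self
    obtain ⟨i16, g1⟩ := hP i hi
    rw [conn, Bool.and_eq_true, Bool.and_eq_true, tb_eq, tb_eq] at hconn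
    obtain ⟨⟨q1, q2⟩, hconn⟩ := hconn
    obtain ⟨Pq, fq, -⟩ := hasg q q1
    obtain ⟨a1, a2⟩ := hlip i q hi Pq q2
    have gq := (hP q Pq).2
    rw [enum, allLt_iff] at h
    have h1 := h (g i + 1 - g q) (by omega)
    have hv : Nat.add (Nat.pred (f q)) (g i + 1 - g q) = g i := by
      rw [fq]
      show g q - 1 + (g i + 1 - g q) = g i
      omega
    simp only [hv] at h1
    have hs : sub (Nat.land (blk c.N i) asg) (Nat.lor (Nat.lor (blk C (Nat.pred (g i)))
        (blk C (g i))) (blk C (Nat.succ (g i)))) = true := by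
      rw [sub_iff]
      intro j hj
      rw [testBit_land, Bool.and_eq_true] at hj
      have hj' := (hasg j hj.2).1
      obtain ⟨b1, b2⟩ := hlip i j hi hj' hj.1
      have j16 := (hP j hj').1
      simp only [testBit_lor, Bool.or_eq_true, hinv.blk, j16, hj.2, true_and, Nat.pred_eq_sub_one,
        Nat.succ_eq_add_one]
      omega
    rw [hs, Bool.not_true, Bool.false_or] at h1
    have hmn : mn lo (g i) = min lo (g i) := by
      unfold mn
      cases hb : Nat.ble lo (g i)
      · have : ¬ lo ≤ g i := Nat.not_le_of_not_ble_eq_true (by rw [hb]; exact Bool.false_ne_true)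
        exact (min_eq_right (le_of_not_ge this)).symm
      · exact (min_eq_left (Nat.le_of_ble_eq_true hb)).symm
    rw [hmn] at h1
    refine ih (addBit asg i) _ _ _ (fun k hk => hl k (List.mem_cons_of_mem _ hk)) ?_ ?_ ?_ hconn h1
    · intro j hj
      rw [testBit_addBit, Bool.or_eq_true, decide_eq_true_eq] at hj
      by_cases hji : j = i
      · subst hji
        refine ⟨hi, ?_, min_le_right _ _⟩
        simp [upd]
      · obtain ⟨b1, b2, b3⟩ := hasg j (hj.resolve_right (Ne.symm hji))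
        refine ⟨b1, ?_, (min_le_left _ _).trans b3⟩
        have : Nat.beq j i = false := by
          rw [← Bool.not_eq_true, Nat.beq_eq]; exact hji
        simp [upd, this, b2]
    · rcases min_choice lo (g i) with h2 | h2 <;> rw [h2]
      · obtain ⟨j, b1, b2⟩ := hlo
        exact ⟨j, by rw [testBit_addBit, b1]; rfl, b2⟩
      · exact ⟨i, by rw [testBit_addBit]; simp, rfl⟩
    · intro v j j16
      have e1 : Nat.add (Nat.mul 16 (g i)) i = 16 * g i + i := rfl
      rw [e1, testBit_addBit, testBit_addBit, Bool.or_eq_true, Bool.or_eq_true, decide_eq_true_eq,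
        decide_eq_true_eq, hinv v j j16]
      constructor
      · rintro (⟨h1, h2⟩ | h1)
        · exact ⟨Or.inl h1, h2⟩
        · have : i = j := by omega
          subst this
          exact ⟨Or.inr rfl, by omega⟩
      · rintro ⟨h1 | rfl, h2⟩
        · exact Or.inl ⟨h1, h2⟩
        · exact Or.inr (by omega)

theorem conn_sound (N r : ℕ) (D : ℕ → ℕ∞) (P : ℕ → Prop)
    (hlip : ∀ i j, P i → P j → (blk N i).testBit j = true → D i ≤ D j + 1 ∧ D j ≤ D i + 1)
    (l : List (ℕ × ℕ)) (asg t : ℕ) (hl : ∀ e ∈ l, P e.1) (hasg : ∀ j, asg.testBit j = true → P j)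
    (hb : ∀ i, asg.testBit i = true → D i ≤ D r + t ∧ D r ≤ D i + t)
    (h : conn N l asg = true) :
    ∀ i, (maskOf (l.map Prod.fst) asg).testBit i = true →
      D i ≤ D r + (t + l.length : ℕ) ∧ D r ≤ D i + (t + l.length : ℕ) := by
  induction l generalizing asg t with
  | nil => exact hb
  | cons e l ih =>
    obtain ⟨x, y⟩ := e
    have hx : P x := hl _ List.mem_cons_self
    rw [conn, Bool.and_eq_true, Bool.and_eq_true, tb_eq, tb_eq] at h
    obtain ⟨⟨q1, q2⟩, h⟩ := h
    have e : t + ((x, y) :: l).length = t + 1 + l.length := by rw [List.length_cons]; omega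
    rw [e]
    refine ih (addBit asg x) (t + 1) (fun k hk => hl k (List.mem_cons_of_mem _ hk)) ?_ ?_ h
    · intro j hj
      rw [testBit_addBit, Bool.or_eq_true, decide_eq_true_eq] at hj
      rcases hj with hj | rfl
      · exact hasg j hj
      · exact hx
    · intro i hi
      rw [testBit_addBit, Bool.or_eq_true, decide_eq_true_eq] at hi
      obtain ⟨a1, a2⟩ := hlip x y hx (hasg y q1) q2
      obtain ⟨b1, b2⟩ := hb y q1
      push_cast
      rcases hi with hi | rfl
      · obtain ⟨c1, c2⟩ := hb i hi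
        exact ⟨c1.trans (by gcongr; exact le_self_add), c2.trans (by gcongr; exact le_self_add)⟩
      · constructor
        · calc D x ≤ D y + 1 := a1
            _ ≤ D r + t + 1 := by gcongr
            _ = D r + (t + 1) := by ring
        · calc D r ≤ D y + t := b2
            _ ≤ D x + 1 + t := by gcongr
            _ = D x + (t + 1) := by ring

variable {W : Type} {G : SimpleGraph W}

theorem edist_adj_le {a b : W} (h : G.Adj a b) (p : W) : G.edist a p ≤ G.edist b p + 1 := by
  calc G.edist a p ≤ G.edist a b + G.edist b p := G.edist_triangle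
    _ = G.edist b p + 1 := by rw [SimpleGraph.edist_eq_one_iff_adj.2 h, add_comm]

theorem exists_closer {a p : W} (hne : a ≠ p) (hfin : G.edist a p ≠ ⊤) :
    ∃ z, G.Adj a z ∧ G.edist z p + 1 = G.edist a p := by
  obtain ⟨w, hw⟩ := SimpleGraph.exists_walk_of_edist_ne_top hfin
  cases w with
  | nil => exact absurd rfl hne
  | cons h q =>
    refine ⟨_, h, le_antisymm ?_ (edist_adj_le h p)⟩
    rw [← hw, SimpleGraph.Walk.length_cons]
    push_cast
    gcongr
    exact SimpleGraph.edist_le q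

theorem Cert.sound (c : Cert) (hs : c.static = true) (hd : c.dyn = true) (Φ : ℕ → W)
    (hinj : ∀ i < c.m, ∀ j < c.m, Φ i = Φ j → i = j)
    (hadj : ∀ i < c.m, ∀ j < c.m, (blk c.N i).testBit j = true → G.Adj (Φ i) (Φ j))
    (hnon : ∀ i < c.m, ∀ j < c.m, (blk c.NN i).testBit j = true → ¬ G.Adj (Φ i) (Φ j))
    (hcl : ∀ x ∈ c.closed, ∀ z, G.Adj (Φ x) z → ∃ u, (blk c.N x).testBit u = true ∧ Φ u = z) :
    ¬ Locatable G := by
  simp only [Cert.static, Bool.and_eq_true, decide_eq_true_eq, List.all_eq_true,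
    Bool.not_eq_true', List.isEmpty_eq_false_iff, List.contains_iff_mem, Nat.beq_eq, tb_eq] at hs
  obtain ⟨⟨⟨⟨⟨⟨⟨⟨m10, l10⟩, hom⟩, famne⟩, hord⟩, hfam⟩, hclosed⟩, hgood⟩, hconn⟩ := hs
  rw [Cert.dyn] at hd
  have hmem : ∀ j, c.om.testBit j = true ↔ j ∈ c.ord := fun j => by
    rw [hom, testBit_maskOf]; simp
  have hom' : maskOf (c.tree.map Prod.fst) (addBit 0 c.root) = c.om := hom.symm
  have hroot : c.root ∈ c.ord := List.mem_cons_self
  have htree : ∀ e ∈ c.tree, e.1 ∈ c.ord := fun e he =>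
    List.mem_cons_of_mem _ (List.mem_map_of_mem he)
  have hasg0 : ∀ j, (addBit 0 c.root).testBit j = true → j = c.root := by
    intro j hj
    rw [testBit_addBit] at hj
    simpa [eq_comm] using hj
  have hfamord : ∀ A ∈ c.fam, ∀ i, A.testBit i = true → i ∈ c.ord := fun A hA i hi =>
    (hmem i).1 (sub_iff.1 (hfam A hA).1.1 i hi)
  let T : ℕ → Set W := fun A => {z | ∃ i, A.testBit i = true ∧ Φ i = z}
  have hTne : ∀ A ∈ c.fam, (T A).Nonempty := by
    intro A hA
    obtain ⟨i, hi⟩ := not_isZ_iff.1 (show (!isZ A) = true by rw [(hfam A hA).1.2]; rfl)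
    exact ⟨Φ i, i, hi, rfl⟩
  refine not_locatable_of_family (T '' {A | A ∈ c.fam}) ?_ ?_
  · obtain ⟨A, hA⟩ := List.exists_mem_of_ne_nil _ famne
    exact ⟨T A, ⟨A, hA, rfl⟩, hTne A hA⟩
  rintro _ ⟨A, hA, rfl⟩ p
  -- a good class gives the required step
  have step : ∀ j ∈ c.m :: c.ord, (∀ z ∈ c.ord, Φ z = p → z = j) → ∀ (S : ℕ) (d : ℕ∞),
      (c.goods.getD j 0).testBit S = true → (∀ i, S.testBit i = true → A.testBit i = true) →
      (∀ i, S.testBit i = true → G.edist (Φ i) p = d) →
      ∃ d : ℕ∞, (∃ u ∈ T A, ∃ v ∈ T A, u ≠ v ∧ G.edist u p = d ∧ G.edist v p = d) ∧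
        ∃ A' ∈ T '' {A | A ∈ c.fam}, A'.Nonempty ∧
          ∀ z ∈ A', z ≠ p ∧ ∃ s ∈ T A, G.edist s p = d ∧ (z = s ∨ G.Adj s z) := by
    intro j hj hp S d hS hSA hSd
    have hSlt : S < 2 ^ c.m := by
      refine Nat.lt_pow_two_of_testBit S fun i hi => ?_
      by_contra h
      have := hord i (hfamord A hA i (hSA i (by simpa using h)))
      omega
    have h1 := hgood j hj
    rw [goodOK, allLt_iff] at h1
    have h2 := h1 S hSlt
    rw [tb_eq, hS, Bool.not_true, Bool.false_or, Bool.and_eq_true, two] at h2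
    simp only [List.any_eq_true, Bool.and_eq_true, Bool.not_eq_true', tb_eq] at h2
    obtain ⟨h3, A', hA', hsub, hj'⟩ := h2
    obtain ⟨u, -, hu, h3⟩ := anyUp_spec h3
    rw [Bool.and_eq_true] at h3
    obtain ⟨Su, h3⟩ := h3
    obtain ⟨v, -, hv, Sv⟩ := anyUp_spec h3
    rw [zero_add] at hu hv
    refine ⟨d, ⟨Φ u, ⟨u, hSA u Su, rfl⟩, Φ v, ⟨v, hSA v Sv, rfl⟩, fun h => ?_, hSd u Su,
      hSd v Sv⟩, T A', ⟨A', hA', rfl⟩, hTne A' hA', ?_⟩
    · have := hinj u hu v (by omega) h
      omega
    · rintro _ ⟨z, hz, rfl⟩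
      have zo := hfamord A' hA' z hz
      refine ⟨fun h => ?_, ?_⟩
      · rw [hp z zo h, hj'] at hz
        cases hz
      · rcases clo_spec (sub_iff.1 hsub z hz) with h | ⟨i, hi, Si, h⟩
        · exact ⟨Φ z, ⟨z, hSA z h, rfl⟩, hSd z h, Or.inl rfl⟩
        · exact ⟨Φ i, ⟨i, hSA i Si, rfl⟩, hSd i Si, Or.inr (hadj i hi z (hord z zo) h)⟩
  set D : ℕ → ℕ∞ := fun i => G.edist (Φ i) p with hD
  have hlipD : ∀ i j, i ∈ c.ord → j ∈ c.ord → (blk c.N i).testBit j = true →
      D i ≤ D j + 1 ∧ D j ≤ D i + 1 := fun i j hi hj h =>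
    ⟨edist_adj_le (hadj i (hord i hi) j (hord j hj) h) p,
      edist_adj_le (hadj i (hord i hi) j (hord j hj) h).symm p⟩
  have hb : ∀ i ∈ c.ord, D i ≤ D c.root + 9 ∧ D c.root ≤ D i + 9 := by
    intro i hi
    obtain ⟨h1, h2⟩ := conn_sound c.N c.root D (· ∈ c.ord) hlipD c.tree (addBit 0 c.root) 0 htree
      (fun j hj => hasg0 j hj ▸ hroot) (fun j hj => by rw [hasg0 j hj]; simp) hconn i
      (by rw [hom']; exact (hmem i).2 hi)
    have h3 : ((0 + c.tree.length : ℕ) : ℕ∞) ≤ 9 := by
      exact_mod_cast (by omega : 0 + c.tree.length ≤ 9)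
    exact ⟨h1.trans (by gcongr), h2.trans (by gcongr)⟩
  by_cases htop : D c.root = ⊤
  · have htop' : ∀ i ∈ c.ord, D i = ⊤ := by
      intro i hi
      have := (hb i hi).2
      rw [htop, top_le_iff] at this
      exact (WithTop.add_eq_top.1 this).resolve_right (by decide)
    refine step c.m List.mem_cons_self (fun z hz h => ?_) A ⊤ (hfam A hA).2 (fun _ h => h)
      fun i hi => htop' i (hfamord A hA i hi)
    have := htop' z hz
    simp [hD, h] at this
  have hfin : ∀ i ∈ c.ord, D i ≠ ⊤ := by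
    intro i hi h
    have := (hb i hi).1
    rw [h, top_le_iff] at this
    exact (WithTop.add_eq_top.1 this).elim htop (by decide)
  set d : ℕ → ℕ := fun i => (D i).toNat with hdd
  have hcast : ∀ i ∈ c.ord, D i = d i := fun i hi => (ENat.natCast_toNat (hfin i hi)).symm
  set g : ℕ → ℕ := fun i => d i + 10 - d c.root with hg
  have hgd : ∀ i ∈ c.ord, g i + d c.root = d i + 10 ∧ 1 ≤ g i := fun i hi => by
    have h1 := (hb i hi).2
    rw [hcast i hi, hcast _ hroot] at h1
    have h2 : d c.root ≤ d i + 9 := by exact_mod_cast h1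
    simp only [hg]
    omega
  have hgr : g c.root = 10 := by simp [hg]
  obtain ⟨C, lo, f, hinv, hf, ⟨i0, hi0, hlo⟩, hleaf⟩ := enum_sound c g (· ∈ c.ord) (fun i hi => by
      have h3 := hord i hi
      exact ⟨by omega, (hgd i hi).2⟩) (fun i j hi hj h => by
      obtain ⟨h1, h2⟩ := hlipD i j hi hj h
      rw [hcast i hi, hcast j hj] at h1 h2
      have h3 : d i ≤ d j + 1 := by exact_mod_cast h1
      have h4 : d j ≤ d i + 1 := by exact_mod_cast h2
      have h5 := hgd i hi
      have h6 := hgd j hj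
      omega) c.tree _ _ 10 (fun _ => 10) htree
      (fun j hj => by rw [hasg0 j hj]; exact ⟨hroot, hgr.symm, hgr.ge⟩)
      ⟨c.root, by rw [testBit_addBit]; simp, hgr⟩ (by
        intro v j j16
        have := hord _ hroot
        rw [testBit_addBit, testBit_addBit]
        simp only [Nat.zero_testBit, Bool.false_or, decide_eq_true_eq]
        constructor
        · intro h
          have : c.root = j := by omega
          subst this
          exact ⟨rfl, by omega⟩
        · rintro ⟨rfl, h⟩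
          omega) hconn hd
  rw [hom'] at hinv hf hi0
  simp only [hmem] at hf hi0
  have hblk : ∀ v j, (blk C v).testBit j = true ↔ j ∈ c.ord ∧ g j = v := by
    intro v j
    rw [hinv.blk, hmem]
    constructor
    · exact fun h => h.2
    · intro h
      have := hord j h.1
      exact ⟨by omega, h⟩
  have hwin : ∀ j ∈ c.m :: c.ord, (∀ z ∈ c.ord, Φ z = p → z = j) →
      win c.fam (c.goods.getD j 0) C lo = true →
      ∃ d : ℕ∞, (∃ u ∈ T A, ∃ v ∈ T A, u ≠ v ∧ G.edist u p = d ∧ G.edist v p = d) ∧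
        ∃ A' ∈ T '' {A | A ∈ c.fam}, A'.Nonempty ∧
          ∀ z ∈ A', z ≠ p ∧ ∃ s ∈ T A, G.edist s p = d ∧ (z = s ∨ G.Adj s z) := by
    intro j hj hp hw
    rw [win, List.all_eq_true] at hw
    obtain ⟨w, -, -, hw⟩ := anyUp_spec (hw A hA)
    rw [tb_eq] at hw
    refine step j hj hp _ (w + d c.root - 10 : ℕ) hw (fun i hi => ?_) fun i hi => ?_
    · rw [testBit_land, Bool.and_eq_true] at hi
      exact hi.1
    · rw [testBit_land, Bool.and_eq_true, hblk] at hi
      have h1 := hgd i hi.2.1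
      have h2 := hi.2.2
      have h3 : d i = w + d c.root - 10 := by omega
      rw [← h3]
      exact hcast i hi.2.1
  have hentry : ∀ x ∈ c.closed, Φ x ≠ p → entryOK c.N C f x = true := by
    intro x hx hxp
    have xo : x ∈ c.ord := (hclosed x hx).1
    obtain ⟨z, hz, hzd⟩ := exists_closer hxp (hfin x xo)
    obtain ⟨u, hu, rfl⟩ := hcl x hx z hz
    have uo : u ∈ c.ord := (hmem u).1 (sub_iff.1 (hclosed x hx).2 u hu)
    have h1 : D u + 1 = D x := hzd
    rw [hcast u uo, hcast x xo] at h1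
    have h2 : d u + 1 = d x := by exact_mod_cast h1
    have h3 := hgd u uo
    have h4 := hgd x xo
    rw [entryOK, not_isZ_iff]
    refine ⟨u, ?_⟩
    rw [testBit_land, Bool.and_eq_true, hblk, (hf x xo).1, Nat.pred_eq_sub_one]
    exact ⟨hu, uo, by omega⟩
  rw [leaf, Bool.and_eq_true] at hleaf
  obtain ⟨hout, hin⟩ := hleaf
  by_cases hp : ∃ j ∈ c.ord, Φ j = p
  · obtain ⟨j, hj, hjp⟩ := hp
    have huniq : ∀ z ∈ c.ord, Φ z = p → z = j := fun z hz h =>
      hinj z (hord z hz) j (hord j hj) (h.trans hjp.symm)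
    have hd0 : ∀ z ∈ c.ord, d z = 0 ↔ z = j := by
      intro z hz
      constructor
      · intro h
        have h1 := hcast z hz
        rw [h] at h1
        exact huniq z hz (SimpleGraph.edist_eq_zero_iff.1 h1)
      · rintro rfl
        simp [hdd, hD, hjp]
    have hd1 : ∀ z ∈ c.ord, d z = 1 ↔ G.Adj (Φ j) (Φ z) := by
      intro z hz
      rw [G.adj_comm, hjp, ← SimpleGraph.edist_eq_one_iff_adj]
      have h1 : G.edist (Φ z) p = d z := hcast z hz
      rw [h1]
      exact Nat.cast_eq_one.symm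
    have hi00 : lo + d c.root = 10 := by
      have h1 := (hf j hj).2
      have h2 := (hd0 j hj).2 rfl
      have h3 := hgd j hj
      have h4 := hgd i0 hi0
      omega
    refine hwin j (List.mem_cons_of_mem _ hj) huniq ?_
    have h1 := List.all_eq_true.1 hin j hj
    rw [Bool.or_eq_true, Bool.not_eq_true'] at h1
    refine h1.resolve_left ?_
    rw [Bool.not_eq_false, Bool.and_eq_true, Bool.and_eq_true, Bool.and_eq_true]
    refine ⟨⟨⟨?_, ?_⟩, ?_⟩, ?_⟩
    · rw [Nat.beq_eq]
      refine Nat.eq_of_testBit_eq fun z => ?_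
      rw [Bool.eq_iff_iff, hblk]
      show _ ↔ (2 ^ j).testBit z = true
      rw [Nat.testBit_two_pow, decide_eq_true_eq]
      constructor
      · rintro ⟨hz, h⟩
        have := hgd z hz
        exact ((hd0 z hz).1 (by omega)).symm
      · rintro rfl
        have h2 := hgd j hj
        have h3 := (hd0 j hj).2 rfl
        exact ⟨hj, by omega⟩
    · rw [sub_iff]
      intro z hz
      rw [testBit_land, Bool.and_eq_true, hmem] at hz
      have h2 := (hd1 z hz.2).2 (hadj j (hord j hj) z (hord z hz.2) hz.1)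
      have h3 := hgd z hz.2
      exact (hblk _ z).2 ⟨hz.2, by rw [Nat.succ_eq_add_one]; omega⟩
    · rw [isZ_iff]
      intro z
      rw [← Bool.not_eq_true, testBit_land, Bool.and_eq_true, hblk]
      rintro ⟨h2, hz, h3⟩
      have h4 := hgd z hz
      rw [Nat.succ_eq_add_one] at h3
      exact hnon j (hord j hj) z (hord z hz) h2 ((hd1 z hz).1 (by omega))
    · rw [List.all_eq_true]
      intro x hx
      rw [Bool.or_eq_true, Nat.beq_eq]
      by_cases hxj : x = j
      · exact Or.inl hxj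
      · exact Or.inr (hentry x hx fun h => hxj (huniq x (hclosed x hx).1 h))
  · push Not at hp
    refine hwin c.m List.mem_cons_self (fun z hz h => absurd h (hp z hz)) ?_
    rw [Bool.or_eq_true, Bool.not_eq_true'] at hout
    refine hout.resolve_left ?_
    rw [Bool.not_eq_false, List.all_eq_true]
    exact fun x hx => hentry x hx (hp x (hclosed x hx).1)

end Pool.Agent.P.MP_03a3ac_co
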