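import Mathlib
import Pool.Agent.P.MP_03a3ac_co.Certs

/-! Every graph containing `H` is non-locatable. -/

namespace Pool.Agent.P.MP_03a3ac_co

/-- The graph `H` on eight vertices. -/
def H : SimpleGraph (Fin 8) where
  Adj i j := hE i j = true
  symm := ⟨by decide⟩
  loopless := ⟨by decide⟩

theorem hE_lt {i j : ℕ} (h : hE i j = true) : i < 8 ∧ j < 8 := by
  simp only [hE, List.any_cons, List.any_nil, Bool.or_eq_true, Bool.and_eq_true, beq_iff_eq,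
    Bool.false_eq_true, or_false] at h
  omega

variable {W : Type} {G : SimpleGraph W}

theorem Cert.use (c : Cert) (hok : c.ok = true) (Φ : ℕ → W)
    (hinj : ∀ i < c.m, ∀ j < c.m, Φ i = Φ j → i = j)
    (hH : ∀ i j, hE i j = true → G.Adj (Φ i) (Φ j))
    (hex : ∀ e ∈ c.extra, G.Adj (Φ e.1) (Φ e.2))
    (hind : c.ind = true → ∀ i < 8, ∀ j < 8, hE i j = false → ¬ G.Adj (Φ i) (Φ j))
    (hxn : ∀ e ∈ c.xnon, ¬ G.Adj (Φ e.1) (Φ e.2))
    (hcl : ∀ x ∈ c.closed, x < c.m ∧ ∀ z, G.Adj (Φ x) z →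
      ∃ u < c.m, (hE x u = true ∨ (x, u) ∈ c.extra) ∧ Φ u = z) : ¬ Locatable G := by
  rw [Cert.ok, Bool.and_eq_true, Bool.and_eq_true] at hok
  obtain ⟨⟨hs, hd⟩, hr⟩ := hok
  simp only [Cert.rel, List.all_eq_true, List.mem_range, Bool.and_eq_true, Bool.or_eq_true,
    Bool.not_eq_true', List.contains_iff_mem, decide_eq_true_eq] at hr
  refine c.sound hs hd Φ hinj ?_ ?_ ?_
  · intro i hi j hj h
    rcases (hr i hi j hj).1.1 with ((h1 | h1) | h1) | h1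
    · rw [h] at h1; cases h1
    · exact hH i j h1
    · exact hex _ h1
    · exact (hex _ h1).symm
  · intro i hi j hj h
    rcases (hr i hi j hj).1.2 with ((h1 | h1) | h1) | h1
    · rw [h] at h1; cases h1
    · exact hind h1.1.1.1 i h1.1.1.2 j h1.1.2 h1.2
    · exact hxn _ h1
    · exact fun h2 => hxn _ h1 h2.symm
  · intro x hx z hz
    obtain ⟨xm, h1⟩ := hcl x hx
    obtain ⟨u, um, h2, h3⟩ := h1 z hz
    refine ⟨u, (hr x xm u um).2.resolve_left ?_, h3⟩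
    rw [Bool.not_eq_false]
    simpa only [Bool.and_eq_true, Bool.or_eq_true, List.contains_iff_mem] using ⟨hx, h2⟩

/-- The eight vertices of the copy followed by two further vertices. -/
def ext (φ : H.Copy G) (w w' : W) (i : ℕ) : W :=
  if h : i < 8 then φ ⟨i, h⟩ else if i = 8 then w else w'

theorem ext_lt (φ : H.Copy G) (w w' : W) {i : ℕ} (h : i < 8) : ext φ w w' i = φ ⟨i, h⟩ := by
  simp [ext, h]

theorem ext_H (φ : H.Copy G) (w w' : W) (i j : ℕ) (h : hE i j = true) :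
    G.Adj (ext φ w w' i) (ext φ w w' j) := by
  obtain ⟨hi, hj⟩ := hE_lt h
  rw [ext_lt φ w w' hi, ext_lt φ w w' hj]
  exact φ.toHom.map_rel' h

theorem ext_inj (φ : H.Copy G) (w w' : W) (m : ℕ) (hm : m ≤ 10)
    (hw : 8 < m → ∀ i, φ i ≠ w) (hw' : 9 < m → (∀ i, φ i ≠ w') ∧ w ≠ w') :
    ∀ i < m, ∀ j < m, ext φ w w' i = ext φ w w' j → i = j := by
  intro i hi j hj h
  unfold ext at h
  split_ifs at h with h1 h2 h3 h4 h5 h6 h7 h8
  · simpa using φ.injective h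
  · exact absurd h (hw (by omega) _)
  · exact absurd h ((hw' (by omega)).1 _)
  · exact absurd h.symm (hw (by omega) _)
  · omega
  · exact absurd h (hw' (by omega)).2
  · exact absurd h.symm ((hw' (by omega)).1 _)
  · exact absurd h.symm (hw' (by omega)).2
  · omega

theorem extra_edge (φ : H.Copy G) (c : Cert) (hok : c.ok = true) (a b : Fin 8) (hm : c.m = 8)
    (he : c.extra = [(a.1, b.1)]) (hi : c.ind = false) (hx : c.xnon = []) (hc : c.closed = [])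
    (h : G.Adj (φ a) (φ b)) : ¬ Locatable G := by
  refine c.use hok (ext φ (φ 0) (φ 0)) (ext_inj φ _ _ _ (by omega) (by omega) (by omega))
    (ext_H φ _ _) ?_ (by simp [hi]) (by simp [hx]) (by simp [hc])
  rw [he]
  intro e hmem
  rw [List.mem_singleton.1 hmem, ext_lt φ _ _ a.2, ext_lt φ _ _ b.2]
  exact h

theorem forcing (φ : H.Copy G) : ¬ Locatable G := by
  by_cases hind : ∃ a b : Fin 8, hE a b = false ∧ G.Adj (φ a) (φ b)
  · obtain ⟨a, b, h1, h2⟩ := hind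
    wlog hab : a < b generalizing a b
    · refine this b a ?_ h2.symm (lt_of_le_of_ne (not_lt.1 hab) ?_)
      · exact (by decide : ∀ a b : Fin 8, hE a b = false → hE b a = false) a b h1
      · rintro rfl; exact h2.ne rfl
    have hcase : ∀ a b : Fin 8, a < b → hE a b = false → (a, b) ∈ [((0 : Fin 8), (1 : Fin 8)), ((0 : Fin 8), (2 : Fin 8)), ((0 : Fin 8), (3 : Fin 8)), ((0 : Fin 8), (4 : Fin 8)), ((0 : Fin 8), (5 : Fin 8)), ((0 : Fin 8), (7 : Fin 8)), ((1 : Fin 8), (2 : Fin 8)), ((1 : Fin 8), (3 : Fin 8)), ((1 : Fin 8), (4 : Fin 8)), ((1 : Fin 8), (6 : Fin 8)), ((2 : Fin 8), (3 : Fin 8)), ((2 : Fin 8), (6 : Fin 8)), ((2 : Fin 8), (7 : Fin 8)), ((3 : Fin 8), (5 : Fin 8)), ((4 : Fin 8), (5 : Fin 8)), ((4 : Fin 8), (6 : Fin 8)), ((5 : Fin 8), (6 : Fin 8))] := by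
      decide
    have := hcase a b hab h1
    simp only [List.mem_cons, Prod.mk.injEq, List.not_mem_nil, or_false] at this
    rcases this with ⟨rfl, rfl⟩ | ⟨rfl, rfl⟩ | ⟨rfl, rfl⟩ | ⟨rfl, rfl⟩ | ⟨rfl, rfl⟩ | ⟨rfl, rfl⟩ | ⟨rfl, rfl⟩ | ⟨rfl, rfl⟩ | ⟨rfl, rfl⟩ | ⟨rfl, rfl⟩ | ⟨rfl, rfl⟩ | ⟨rfl, rfl⟩ | ⟨rfl, rfl⟩ | ⟨rfl, rfl⟩ | ⟨rfl, rfl⟩ | ⟨rfl, rfl⟩ | ⟨rfl, rfl⟩
    · exact extra_edge φ ce01 ok_ce01 _ _ rfl rfl rfl rfl rfl h2
    · exact extra_edge φ ce02 ok_ce02 _ _ rfl rfl rfl rfl rfl h2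
    · exact extra_edge φ ce03 ok_ce03 _ _ rfl rfl rfl rfl rfl h2
    · exact extra_edge φ ce04 ok_ce04 _ _ rfl rfl rfl rfl rfl h2
    · exact extra_edge φ ce05 ok_ce05 _ _ rfl rfl rfl rfl rfl h2
    · exact extra_edge φ ce07 ok_ce07 _ _ rfl rfl rfl rfl rfl h2
    · exact extra_edge φ ce12 ok_ce12 _ _ rfl rfl rfl rfl rfl h2
    · exact extra_edge φ ce13 ok_ce13 _ _ rfl rfl rfl rfl rfl h2
    · exact extra_edge φ ce14 ok_ce14 _ _ rfl rfl rfl rfl rfl h2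
    · exact extra_edge φ ce16 ok_ce16 _ _ rfl rfl rfl rfl rfl h2
    · exact extra_edge φ ce23 ok_ce23 _ _ rfl rfl rfl rfl rfl h2
    · exact extra_edge φ ce26 ok_ce26 _ _ rfl rfl rfl rfl rfl h2
    · exact extra_edge φ ce27 ok_ce27 _ _ rfl rfl rfl rfl rfl h2
    · exact extra_edge φ ce35 ok_ce35 _ _ rfl rfl rfl rfl rfl h2
    · exact extra_edge φ ce45 ok_ce45 _ _ rfl rfl rfl rfl rfl h2
    · exact extra_edge φ ce46 ok_ce46 _ _ rfl rfl rfl rfl rfl h2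
    · exact extra_edge φ ce56 ok_ce56 _ _ rfl rfl rfl rfl rfl h2
  push Not at hind
  have hI : ∀ w w' : W, ∀ i < 8, ∀ j < 8, hE i j = false →
      ¬ G.Adj (ext φ w w' i) (ext φ w w' j) := by
    intro w w' i hi j hj h
    rw [ext_lt φ w w' hi, ext_lt φ w w' hj]
    exact hind ⟨i, hi⟩ ⟨j, hj⟩ h
  have hcl : ∀ (w w' : W) (x : Fin 8) (m : ℕ) (ex : List (ℕ × ℕ)), 8 ≤ m →
      (∀ z, (∀ i, φ i ≠ z) → G.Adj (φ x) z → 8 < m ∧ (x.1, 8) ∈ ex ∧ w = z) →
      x.1 < m ∧ ∀ z, G.Adj (ext φ w w' x) z →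
        ∃ u < m, (hE x u = true ∨ (x.1, u) ∈ ex) ∧ ext φ w w' u = z := by
    intro w w' x m ex hm hout
    refine ⟨by omega, fun z hz => ?_⟩
    rw [ext_lt φ w w' x.2] at hz
    by_cases h : ∃ i, φ i = z
    · obtain ⟨i, rfl⟩ := h
      refine ⟨i, by omega, Or.inl ?_, ext_lt φ w w' i.2⟩
      by_contra h1
      exact hind x i (by simpa using h1) hz
    · push Not at h
      obtain ⟨h1, h2, h3⟩ := hout z h hz
      exact ⟨8, h1, Or.inr h2, h3⟩
  by_cases h3 : ∃ w, (∀ i, φ i ≠ w) ∧ G.Adj (φ 3) w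
  · obtain ⟨w, hw, h⟩ := h3
    exact cB.use ok_cB (ext φ w w) (ext_inj φ _ _ 9 (by omega) (fun _ => hw) (by omega))
      (ext_H φ _ _) (List.forall_mem_singleton.2 h) (fun _ => hI w w) (by simp [cB]) (by simp [cB])
  push Not at h3
  have c3 := fun (w w' : W) (m : ℕ) (ex : List (ℕ × ℕ)) (hm : 8 ≤ m) =>
    hcl w w' 3 m ex hm fun z hz h => absurd h (h3 z hz)
  by_cases h1 : ∃ w, (∀ i, φ i ≠ w) ∧ G.Adj (φ 1) w
  swap
  · push Not at h1
    exact cC.use ok_cC (ext φ (φ 0) (φ 0)) (ext_inj φ _ _ 8 (by omega) (by omega) (by omega))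
      (ext_H φ _ _) (by simp [cC]) (fun _ => hI _ _) (by simp [cC])
      (List.forall_mem_cons.2 ⟨hcl _ _ 1 8 [] le_rfl fun z hz h => absurd h (h1 z hz),
        List.forall_mem_singleton.2 (c3 _ _ 8 [] le_rfl)⟩)
  by_cases h7 : ∃ w, (∀ i, φ i ≠ w) ∧ G.Adj (φ 1) w ∧ ¬ G.Adj (φ 7) w
  · obtain ⟨w, hw, h, n7⟩ := h7
    have inj := ext_inj φ w w 9 (by omega) (fun _ => hw) (by omega)
    by_cases a2 : G.Adj (φ 2) w
    · exact cD2.use ok_cD2 (ext φ w w) inj (ext_H φ _ _)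
        (List.forall_mem_cons.2 ⟨h, List.forall_mem_singleton.2 a2⟩) (fun _ => hI w w)
        (by simp [cD2]) (by simp [cD2])
    by_cases a4 : G.Adj (φ 4) w
    · exact cD4.use ok_cD4 (ext φ w w) inj (ext_H φ _ _)
        (List.forall_mem_cons.2 ⟨h, List.forall_mem_singleton.2 a4⟩) (fun _ => hI w w)
        (by simp [cD4]) (by simp [cD4])
    by_cases a6 : G.Adj (φ 6) w
    · exact cD6.use ok_cD6 (ext φ w w) inj (ext_H φ _ _)
        (List.forall_mem_cons.2 ⟨h, List.forall_mem_singleton.2 a6⟩) (fun _ => hI w w)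
        (by simp [cD6]) (List.forall_mem_singleton.2 (c3 w w 9 _ (by omega)))
    by_cases a5 : G.Adj (φ 5) w
    · exact cD5.use ok_cD5 (ext φ w w) inj (ext_H φ _ _)
        (List.forall_mem_cons.2 ⟨h, List.forall_mem_singleton.2 a5⟩) (fun _ => hI w w)
        (by simp [cD5]) (List.forall_mem_singleton.2 (c3 w w 9 _ (by omega)))
    exact cD0.use ok_cD0 (ext φ w w) inj (ext_H φ _ _) (List.forall_mem_singleton.2 h)
      (fun _ => hI w w)
      (List.forall_mem_cons.2 ⟨fun h => n7 h.symm, List.forall_mem_cons.2 ⟨fun h => a2 h.symm,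
        List.forall_mem_cons.2 ⟨fun h => h3 w hw h.symm, List.forall_mem_cons.2
          ⟨fun h => a4 h.symm, List.forall_mem_cons.2 ⟨fun h => a6 h.symm,
            List.forall_mem_singleton.2 fun h => a5 h.symm⟩⟩⟩⟩⟩)
      (List.forall_mem_singleton.2 (c3 w w 9 _ (by omega)))
  push Not at h7
  obtain ⟨w, hw, h⟩ := h1
  by_cases hu : ∃ w', (∀ i, φ i ≠ w') ∧ G.Adj (φ 1) w' ∧ w ≠ w'
  · obtain ⟨w', hw', h', hne⟩ := hu
    exact cE1.use ok_cE1 (ext φ w w')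
      (ext_inj φ w w' 10 le_rfl (fun _ => hw) (fun _ => ⟨hw', hne⟩)) (ext_H φ _ _)
      (List.forall_mem_cons.2 ⟨h, List.forall_mem_cons.2 ⟨h7 w hw h, List.forall_mem_cons.2
        ⟨h', List.forall_mem_singleton.2 (h7 w' hw' h')⟩⟩⟩) (fun _ => hI w w')
      (by simp [cE1]) (by simp [cE1])
  push Not at hu
  exact cE2.use ok_cE2 (ext φ w w) (ext_inj φ w w 9 (by omega) (fun _ => hw) (by omega))
    (ext_H φ _ _) (List.forall_mem_cons.2 ⟨h, List.forall_mem_singleton.2 (h7 w hw h)⟩)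
    (fun _ => hI w w) (by simp [cE2])
    (List.forall_mem_cons.2 ⟨hcl _ _ 1 9 _ (by omega) fun z hz h =>
        ⟨by omega, List.mem_cons_self, hu z hz h⟩,
      List.forall_mem_singleton.2 (c3 _ _ 9 _ (by omega))⟩)

end Pool.Agent.P.MP_03a3ac_co
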