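import Mathlib
import Pool.Agent.P.MP_03a3ac_co.Forcing

/-! The graph `G0` in which the cop catches every robber who stays in `H`. -/

namespace Pool.Agent.P.MP_03a3ac_co

/-- Edges of `G0`: those of `H` and `1 8`, `5 8`. -/
def gE (i j : Fin 9) : Bool :=
  hE i j || (i == 8 && (j == 1 || j == 5)) || (j == 8 && (i == 1 || i == 5))

/-- The graph `G0` on nine vertices. -/
def G0 : SimpleGraph (Fin 9) where
  Adj i j := gE i j = true
  symm := ⟨by decide⟩
  loopless := ⟨by decide⟩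

instance : DecidableRel G0.Adj := fun i j => inferInstanceAs (Decidable (gE i j = true))

/-- The distance table of `G0`. -/
def dist0 : Fin 9 → Fin 9 → Fin 5 :=
  ![![0, 3, 4, 2, 3, 3, 1, 2, 4], ![3, 0, 2, 2, 2, 1, 2, 1, 1], ![4, 2, 0, 2, 1, 1, 3, 2, 2],
    ![2, 2, 2, 0, 1, 2, 1, 1, 3], ![3, 2, 1, 1, 0, 2, 2, 1, 3], ![3, 1, 1, 2, 2, 0, 2, 1, 1],
    ![1, 2, 3, 1, 2, 2, 0, 1, 3], ![2, 1, 2, 1, 1, 1, 1, 0, 2], ![4, 1, 2, 3, 3, 1, 3, 2, 0]]

theorem edist_G0 (u p : Fin 9) : G0.edist u p = ((dist0 u p).1 : ℕ) := by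
  apply le_antisymm
  · have key : ∀ (k : ℕ) (u : Fin 9), (dist0 u p).1 = k → G0.edist u p ≤ k := by
      intro k
      induction k with
      | zero =>
        intro u h
        rw [(by decide : ∀ u p : Fin 9, (dist0 u p).1 = 0 → u = p) u p h]
        simp
      | succ k ih =>
        intro u h
        obtain ⟨v, h1, h2⟩ := (by decide : ∀ u p : Fin 9, (dist0 u p).1 ≠ 0 →
          ∃ v, G0.Adj u v ∧ (dist0 v p).1 + 1 = (dist0 u p).1) u p (by omega)
        refine (edist_adj_le h1 p).trans ?_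
        push_cast
        gcongr
        exact ih v (by omega)
    exact key _ u rfl
  · have key : ∀ (u p : Fin 9) (w : G0.Walk u p), (dist0 u p).1 ≤ w.length := by
      intro u p w
      induction w with
      | nil => rw [(by decide : ∀ u : Fin 9, (dist0 u u).1 = 0)]; simp
      | @cons a b c h q ih =>
        have := (by decide : ∀ a b c : Fin 9, G0.Adj a b → (dist0 a c).1 ≤ (dist0 b c).1 + 1) a b c h
        rw [SimpleGraph.Walk.length_cons]
        omega
    rw [SimpleGraph.edist_eq_sInf]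
    refine le_sInf ?_
    rintro _ ⟨w, rfl⟩
    exact Nat.cast_le.2 (key u p w)

set_option synthInstance.maxSize 4096 in
theorem copy_avoids (φ : H.Copy G0) (i : Fin 8) : φ i ≠ 8 := by
  have key : ∀ x7 x1 : Fin 9, gE x1 x7 = true → ∀ x5, gE x1 x5 = true → gE x5 x7 = true →
      ∀ x2, gE x2 x5 = true → x2 ≠ x1 → x2 ≠ x7 → ∀ x4, gE x2 x4 = true → gE x4 x7 = true →
      x4 ≠ x1 → x4 ≠ x5 → ∀ x3, gE x3 x4 = true → gE x3 x7 = true → x3 ≠ x1 → x3 ≠ x5 → x3 ≠ x2 →
      ∀ x6, gE x3 x6 = true → gE x6 x7 = true → x6 ≠ x1 → x6 ≠ x5 → x6 ≠ x2 → x6 ≠ x4 →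
      ∀ x0, gE x0 x6 = true → x0 ≠ x1 → x0 ≠ x5 → x0 ≠ x2 → x0 ≠ x4 → x0 ≠ x3 → x0 ≠ x7 →
      x0 ≠ 8 ∧ x1 ≠ 8 ∧ x2 ≠ 8 ∧ x3 ≠ 8 ∧ x4 ≠ 8 ∧ x5 ≠ 8 ∧ x6 ≠ 8 ∧ x7 ≠ 8 := by
    decide +kernel
  have e : ∀ a b : Fin 8, hE a b = true → gE (φ a) (φ b) = true := fun a b h =>
    φ.toHom.map_rel' h
  have n : ∀ a b : Fin 8, a ≠ b → φ a ≠ φ b := fun a b h => φ.injective.ne h
  obtain ⟨h0, h1, h2, h3, h4, h5, h6, h7⟩ := key (φ 7) (φ 1) (e _ _ rfl) (φ 5) (e _ _ rfl)
    (e _ _ rfl) (φ 2) (e _ _ rfl) (n _ _ (by decide)) (n _ _ (by decide)) (φ 4) (e _ _ rfl)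
    (e _ _ rfl) (n _ _ (by decide)) (n _ _ (by decide)) (φ 3) (e _ _ rfl) (e _ _ rfl)
    (n _ _ (by decide)) (n _ _ (by decide)) (n _ _ (by decide)) (φ 6) (e _ _ rfl) (e _ _ rfl)
    (n _ _ (by decide)) (n _ _ (by decide)) (n _ _ (by decide)) (n _ _ (by decide)) (φ 0)
    (e _ _ rfl) (n _ _ (by decide)) (n _ _ (by decide)) (n _ _ (by decide)) (n _ _ (by decide))
    (n _ _ (by decide)) (n _ _ (by decide))
  fin_cases i <;> assumption

/-- Candidate positions at each node of the cop's strategy. -/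
def nA : Fin 14 → ℕ := ![511, 238, 186, 166, 294, 420, 310, 406, 220, 93, 422, 495, 187, 355]

/-- Candidate positions of a robber who has stayed in `H`. -/
def nB : Fin 14 → ℕ := ![255, 238, 186, 166, 38, 164, 52, 20, 220, 93, 166, 239, 187, 65]

/-- The probe at each node. -/
def nP : Fin 14 → Fin 9 := ![4, 6, 8, 7, 1, 0, 5, 2, 7, 0, 7, 6, 8, 0]

/-- The number of rounds still needed. -/
def nR : Fin 14 → ℕ := ![8, 7, 6, 5, 4, 3, 2, 1, 2, 1, 5, 7, 6, 1]

/-- The next node. -/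
def nxt : Fin 14 → Fin 5 → Fin 14 :=
  ![![0, 1, 11, 13, 0], ![0, 2, 10, 0, 0], ![0, 3, 0, 8, 0], ![0, 4, 0, 0, 0], ![0, 5, 0, 0, 0],
    ![0, 0, 0, 0, 6], ![0, 7, 0, 0, 0], ![0, 0, 0, 0, 0], ![0, 9, 0, 0, 0], ![0, 0, 0, 0, 0],
    ![0, 4, 6, 0, 0], ![0, 12, 10, 6, 0], ![0, 3, 0, 8, 0], ![0, 0, 0, 0, 0]]

/-- The node reached after a list of answers. -/
def node (l : List ℕ∞) : Fin 14 := l.foldl (fun i d => nxt i (Fin.ofNat 5 d.toNat)) 0

/-- The cop's strategy. -/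
def σ0 (l : List ℕ∞) : Fin 9 := nP (node l)

theorem node_succ (x : ℕ → Fin 9) (t : ℕ) : node (answers G0 σ0 x (t + 1)) =
    nxt (node (answers G0 σ0 x t)) (dist0 (x t) (nP (node (answers G0 σ0 x t)))) := by
  rw [answers, node, List.foldl_append, List.foldl_cons, List.foldl_nil, edist_G0,
    ENat.toNat_natCast, Fin.ofNat_val_eq_self]
  rfl

theorem inv_A (y : ℕ → Fin 9) (t : ℕ) (hy : Legal G0 σ0 y t) :
    (nA (node (answers G0 σ0 y t))).testBit (y t) = true := by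
  induction t with
  | zero => exact (by decide : ∀ v : Fin 9, (nA 0).testBit v = true) _
  | succ t ih =>
    have h := hy t (Nat.lt_succ_self t)
    rw [node_succ]
    exact (by decide +kernel : ∀ (i : Fin 14) (u : Fin 9), (nA i).testBit u = true →
      ∀ v : Fin 9, (v = u ∨ G0.Adj u v) → v ≠ nP i →
        (nA (nxt i (dist0 u (nP i)))).testBit v = true) _ _
      (ih fun s hs => hy s (by omega)) _ h.1 h.2

theorem cop_wins (x : ℕ → Fin 9) (hx : ∀ t, Legal G0 σ0 x t) (h8 : ∀ t, x t ≠ 8) :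
    ∃ t, Located G0 σ0 x t := by
  by_contra hcon
  push Not at hcon
  have key : ∀ t, (nB (node (answers G0 σ0 x t))).testBit (x t) = true ∧
      nR (node (answers G0 σ0 x t)) + t ≤ 8 := by
    intro t
    induction t with
    | zero =>
      exact ⟨(by decide : ∀ v : Fin 9, v ≠ 8 → (nB 0).testBit v = true) _ (h8 0), le_rfl⟩
    | succ t ih =>
      have h := hx (t + 1) t (Nat.lt_succ_self t)
      have h1 := hcon t
      unfold Located at h1
      push Not at h1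
      obtain ⟨y, y1, y2, y3⟩ := h1
      have y4 := inv_A y t y1
      simp only [answers] at y2
      obtain ⟨y5, y6⟩ := List.append_inj' y2 rfl
      rw [y5] at y4 y6
      rw [List.singleton_inj, edist_G0, edist_G0] at y6
      have y7 : dist0 (y t) (nP (node (answers G0 σ0 x t))) =
          dist0 (x t) (nP (node (answers G0 σ0 x t))) := Fin.ext (by exact_mod_cast y6)
      have := (by decide +kernel : ∀ (i : Fin 14) (u : Fin 9), (nB i).testBit u = true →
        ∀ u' : Fin 9, (nA i).testBit u' = true → u' ≠ u → dist0 u' (nP i) = dist0 u (nP i) →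
        nR (nxt i (dist0 u (nP i))) + 1 ≤ nR i ∧
        ∀ v : Fin 9, (v = u ∨ G0.Adj u v) → v ≠ nP i → v ≠ 8 →
          (nB (nxt i (dist0 u (nP i)))).testBit v = true) _ _ ih.1 _ y4 y3 y7
      rw [node_succ]
      exact ⟨this.2 _ h.1 h.2 (h8 _), by omega⟩
  have := (key 9).2
  omega

/-- `H` is an induced subgraph of `G0`. -/
def emb : H ↪g G0 where
  toFun := Fin.castSucc
  inj' := Fin.castSucc_injective 8
  map_rel_iff' := by
    intro a b
    exact (by decide : ∀ a b : Fin 8, gE a.castSucc b.castSucc = true ↔ hE a b = true) a b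

end Pool.Agent.P.MP_03a3ac_co
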